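import Pool.Agent.H82.ZC.Lab

/-!
Zero in the spectrum for closed aspherical manifolds which are covered by open sets with amenable
overlaps such that no point is in more than three of them.

A closed aspherical manifold `M` with fundamental group `G` is homotopy equivalent to a finite CW
complex, and the cellular chain complex of the universal cover of that complex is a finite free
resolution `X` of the trivial `ℤ[G]`-module `ℤ` (`FinRes`). Its homology with coefficients in
`C*_r(G)` is the homology of `M` with these coefficients.

Let `M` be triangulated and covered by open sets `U_i`, such that each closed simplex lies in some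
`U_i` (this holds for the iterated subdivisions of a triangulation). Let `S` be the simplicial
chain complex of the universal cover, and `φ(e)` the component containing the closed simplex `e` of
the intersection of the preimages of all the `U_i` which contain the image of `e`. The components
of these intersections form a poset `P` (`p < q` if `p ⊆ q` and `p` belongs to more of the `U_i`)
on which `G` acts. The stabiliser of `p` is the image in `G` of the fundamental group of the image
of `p` in `M`, and the intersection of the stabilisers of `p < q` is the one of `p`, which belongs
to two of the `U_i` or more. If no point is in four of the sets then `P` has no chain with four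
elements. -/

set_option autoImplicit false

namespace Pool.Agent.Results.MP_48737f_gt.CoversWithAmenableOverlaps

open Pool.Agent.H919R4.ZS (FinRes toRed)
open Pool.Agent.H496R3.ZS (IsAmenable)
open Pool.Agent.H82.ZC (PermComplex RatVanish)

/-- Let `X` be a finite free resolution of `ℤ` over `ℤ[G]` and `S` a rationally acyclic
`G`-complex, for instance the universal cover of `M`. Let the cells of `S` be labelled
equivariantly by the elements of a poset `P` on which `G` acts, such that the labels of the cells
in the boundary of a cell `e` are at most the label of `e`. For a chain of `i + 1` elements of `P`
(a strictly decreasing list `l`) let `C` be the intersection of the stabilisers of its elements.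
Suppose that
* `C` has infinite index in `G` for `i = 0`: no stabiliser of an element of `P` has finite index;
* `C` is amenable or satisfies `H^i(G; ℚ[G/C]) = 0` for `i = 1` and `i = 2` (for instance, the
  intersection of the stabilisers of `p` and `q` is amenable for all `p < q`);
* `C` satisfies `H^i(G; ℚ[G/C]) = 0` for `i ≥ 3` (there is no condition if `P` has no chain of four
  elements).
Then the homology of `X` with coefficients in `C*_r(G)` does not vanish in some degree `i ≤ 2`. -/
theorem result (G : Type) [Group G] (X : FinRes G) (S : PermComplex G) (hS : S.IsAcyclic)
    (P : Type) [PartialOrder P] [MulAction G P]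
    (hlt : ∀ (g : G) (p q : P), p < q → g • p < g • q)
    (φ : ∀ i, S.E i → P)
    (hφ : ∀ (i : ℕ) (g : G) (e : S.E i), φ i (g • e) = g • φ i e)
    (hmono : ∀ (i : ℕ) (e : S.E (i + 1)) (e' : S.E i),
      S.bd i (Finsupp.single e 1) e' ≠ 0 → φ i e' ≤ φ (i + 1) e)
    (h0 : ∀ p : P, Infinite (G ⧸ MulAction.stabilizer G p))
    (h12 : ∀ i, i = 1 ∨ i = 2 → ∀ l : List P, l.length = i + 1 → l.Pairwise (fun a b => b < a) →
      IsAmenable (⨅ p ∈ l, MulAction.stabilizer G p : Subgroup G) ∨
        RatVanish X (⨅ p ∈ l, MulAction.stabilizer G p) i)
    (h3 : ∀ i, 3 ≤ i → ∀ l : List P, l.length = i + 1 → l.Pairwise (fun a b => b < a) →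
      RatVanish X (⨅ p ∈ l, MulAction.stabilizer G p) i) :
    ∃ i ≤ 2, Nontrivial (X.homology (toRed G) i) :=
  Pool.Agent.H82.ZC.main_label X hS hlt φ hφ hmono h0 h12 h3

end Pool.Agent.Results.MP_48737f_gt.CoversWithAmenableOverlaps
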