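import Pool.Agent.H79.ZC.Main

set_option autoImplicit false

/-!
# Zero in the spectrum: the closure of the known classes under the inheritance theorems

A closed aspherical manifold `M` with fundamental group `G` is homotopy equivalent to a finite CW
complex, and the cellular chain complex of the universal cover of that complex is a finite free
resolution `X : FinRes G` of the trivial `ℤ[G]`-module `ℤ` (`Pool.Agent.H919R4.ZS`). Its homology
`X.homology (toRed G) i` is the homology of `M` with coefficients in the reduced group C*-algebra;
it does not vanish in some degree if and only if zero is in the spectrum of the Laplacian on the
forms on the universal cover.

The class `Seen` of pairs of a group `G` and a number `k` (`Pool.Agent.H79.ZC.Defs`) contains the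
groups with a finite free resolution to which one of the criteria of the library applies (`Base`):
nonzero `ℓ²`-cohomology, nonzero Euler characteristic, dimension at most two, nonzero cohomology with
coefficients in `ℤ[G]` or in `ℤ[G/C]` (`C` amenable of infinite index) in a degree at most two,
Poincaré duality groups of dimension at most three, or with a poly-(infinite cyclic) subgroup of
codimension two, slowly varying weights, transverse cycles. It is closed under passing

* from `G/⟨z⟩` to `G` for infinite cyclic normal subgroups `⟨z⟩` (circle bundles);
* from `G/N` to `G` for amenable normal subgroups `N` whose rational homology is distal below the
  degree `k`;
* from `G/N` and any degree to `G` and the degree `m + 1`, if the rational homology of the amenable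
  group `N` is distal below the degree `m` and finite dimensional in the degree `m`, and `G/N` has
  dimension at most `m + 1`, or is a Poincaré duality group of dimension at most `2 m + 2`;
* from a subgroup `N` to `G`, if there is a slow chain map;
* from any degree to the degree `p`, if the resolution has length at most `p`, or if `G` is a
  Poincaré duality group of dimension at most `2 p`.

So the theorem applies to iterated fibre bundles in which the reasons for the inheritance and the
degrees change from step to step.
-/

namespace Pool.Agent.Results.MP_48737f_gt.InheritanceClosure

open Pool.Agent.H919R4.ZS (FinRes toRed)
open Pool.Agent.H79.ZC (Seen)

/-- If `(G, k)` is in the class `Seen` then `G` has a finite free resolution of `ℤ` over `ℤ[G]`, and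
for every such resolution the homology with coefficients in `C*_r(G)` does not vanish in some degree
`i ≤ k`. -/
theorem result (G : Type) [Group G] (k : ℕ) (h : Seen G k) :
    Nonempty (FinRes G) ∧ ∀ X : FinRes G, ∃ i ≤ k, Nontrivial (X.homology (toRed G) i) :=
  h.main

end Pool.Agent.Results.MP_48737f_gt.InheritanceClosure
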